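import Pool.Agent.Q127.HS.Count

/-!
Packings of independent sets of size `p`: basic definitions and counting lemmas.
-/

set_option autoImplicit false
set_option linter.unusedSectionVars false

namespace Q114.KC

open Finset Q127.HS

variable {V : Type*} [DecidableEq V]

/-- `S` is an independent set of `H`. -/
def Ind (H : SimpleGraph V) (S : Finset V) : Prop := ∀ u ∈ S, ∀ v ∈ S, ¬ H.Adj u v

/-- `U` contains `k` pairwise disjoint independent sets of size `p`. -/
def Pack (H : SimpleGraph V) (U : Finset V) (k p : ℕ) : Prop :=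
  ∃ F : Fin k → Finset V, (∀ i, F i ⊆ U ∧ (F i).card = p ∧ Ind H (F i)) ∧
    ∀ i j, i ≠ j → Disjoint (F i) (F j)

/-- Twice the number of edges inside `U`. -/
noncomputable def es (H : SimpleGraph V) (U : Finset V) : ℕ := ∑ v ∈ U, dg H U v

theorem Ind.mono {H : SimpleGraph V} {S T : Finset V} (h : Ind H T) (hST : S ⊆ T) : Ind H S :=
  fun u hu v hv => h u (hST hu) v (hST hv)

theorem Pack.mono {H : SimpleGraph V} {U U' : Finset V} {k p : ℕ} (h : Pack H U k p)
    (hU : U ⊆ U') : Pack H U' k p := by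
  obtain ⟨F, h1, h2⟩ := h
  exact ⟨F, fun i => ⟨(h1 i).1.trans hU, (h1 i).2⟩, h2⟩

theorem Pack.zero (H : SimpleGraph V) (U : Finset V) (p : ℕ) : Pack H U 0 p :=
  ⟨fun i => i.elim0, fun i => i.elim0, fun i => i.elim0⟩

theorem Pack.pzero (H : SimpleGraph V) (U : Finset V) (k : ℕ) : Pack H U k 0 :=
  ⟨fun _ => ∅, fun _ => ⟨empty_subset _, card_empty, fun u hu => absurd hu (notMem_empty u)⟩,
    fun _ _ _ => disjoint_empty_left _⟩

theorem Pack.succ {H : SimpleGraph V} {U I : Finset V} {k p : ℕ} (hI : I ⊆ U)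
    (hc : I.card = p) (hi : Ind H I) (h : Pack H (U \ I) k p) : Pack H U (k + 1) p := by
  obtain ⟨F, h1, h2⟩ := h
  refine ⟨Fin.cons I F, ?_, ?_⟩
  · intro i
    refine Fin.cases ?_ ?_ i
    · exact ⟨hI, hc, hi⟩
    · intro j
      simp only [Fin.cons_succ]
      exact ⟨(h1 j).1.trans sdiff_subset, (h1 j).2⟩
  · intro i j
    refine Fin.cases ?_ ?_ i
    · refine Fin.cases ?_ ?_ j
      · intro h; exact absurd rfl h
      · intro j _
        simp only [Fin.cons_zero, Fin.cons_succ]
        exact (disjoint_of_subset_left (h1 j).1 sdiff_disjoint).symm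
    · intro i
      refine Fin.cases ?_ ?_ j
      · intro _
        simp only [Fin.cons_zero, Fin.cons_succ]
        exact disjoint_of_subset_left (h1 i).1 sdiff_disjoint
      · intro j hij
        simp only [Fin.cons_succ]
        exact h2 i j fun h => hij (by rw [h])

theorem dg_eq {H : SimpleGraph V} {X : Finset V} {x : V} [DecidablePred (fun w => H.Adj x w)] :
    dg H X x = (X.filter (fun w => H.Adj x w)).card := by
  unfold dg
  congr 1
  ext w
  simp

theorem dg_pos {H : SimpleGraph V} {X : Finset V} {x : V} :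
    1 ≤ dg H X x ↔ ∃ w ∈ X, H.Adj x w := by
  classical
  rw [dg_eq, Nat.succ_le_iff, card_pos]
  constructor
  · rintro ⟨w, hw⟩
    exact ⟨w, (mem_filter.1 hw).1, (mem_filter.1 hw).2⟩
  · rintro ⟨w, hw, h⟩
    exact ⟨w, mem_filter.2 ⟨hw, h⟩⟩

theorem dg_zero {H : SimpleGraph V} {X : Finset V} {x : V} :
    dg H X x = 0 ↔ ∀ w ∈ X, ¬ H.Adj x w := by
  rw [← not_iff_not, ← ne_eq, ← Nat.one_le_iff_ne_zero, dg_pos]
  push Not
  rfl

theorem dg_add {H : SimpleGraph V} {X Y : Finset V} (h : X ⊆ Y) (x : V) :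
    dg H X x + dg H (Y \ X) x = dg H Y x := by
  classical
  rw [dg_eq, dg_eq, dg_eq, ← card_union_of_disjoint, ← filter_union, union_sdiff_of_subset h]
  exact disjoint_filter_filter disjoint_sdiff

/-- degree into an independent set containing the vertex -/
theorem Ind.dg {H : SimpleGraph V} {S : Finset V} (h : Ind H S) {x : V} (hx : x ∈ S) :
    dg H S x = 0 := dg_zero.2 fun w hw => h x hx w hw

/-- removing an independent set -/
theorem es_sdiff {H : SimpleGraph V} {U I : Finset V} (hI : I ⊆ U) (hi : Ind H I) :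
    es H U = es H (U \ I) + 2 * ∑ x ∈ I, dg H U x := by
  unfold es
  rw [← sum_sdiff hI]
  have h1 : ∀ v ∈ U \ I, dg H U v = dg H I v + dg H (U \ I) v := fun v _ => (dg_add hI v).symm
  rw [sum_congr rfl h1, sum_add_distrib, sum_dg_comm H (U \ I) I]
  have h2 : ∀ x ∈ I, dg H (U \ I) x = dg H U x := by
    intro x hx
    have := dg_add (H := H) hI x
    rw [hi.dg hx] at this
    omega
  rw [sum_congr rfl h2]
  ring

theorem Ind.singleton (H : SimpleGraph V) (v : V) : Ind H {v} := by
  intro a ha b hb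
  rw [mem_singleton] at ha hb
  subst ha; subst hb
  exact H.irrefl

theorem es_erase {H : SimpleGraph V} {U : Finset V} {v : V} (hv : v ∈ U) :
    es H U = es H (U.erase v) + 2 * dg H U v := by
  have h := es_sdiff (H := H) (U := U) (I := {v}) (singleton_subset_iff.2 hv) (Ind.singleton H v)
  rw [sum_singleton, sdiff_singleton_eq_erase] at h
  exact h

theorem dg_le_card (H : SimpleGraph V) (X : Finset V) (x : V) : dg H X x ≤ X.card := by
  classical
  rw [dg_eq]; exact card_filter_le _ _

/-- degree sum of an independent set: at least the number of dominated vertices outside -/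
theorem degsum_ge {H : SimpleGraph V} {U I : Finset V} (hI : I ⊆ U) (hi : Ind H I) :
    ((U \ I).filter (fun v => 1 ≤ dg H I v)).card ≤ ∑ x ∈ I, dg H U x := by
  have h2 : ∀ x ∈ I, dg H (U \ I) x = dg H U x := by
    intro x hx
    have := dg_add (H := H) hI x
    rw [hi.dg hx] at this
    omega
  rw [← sum_congr rfl h2, ← sum_dg_comm H (U \ I) I, card_filter]
  apply sum_le_sum
  intro v _
  split_ifs with h <;> omega

/-- An independent set of size `s` inside a larger one. -/
theorem Ind.exists_subset {H : SimpleGraph V} {S A : Finset V} {s : ℕ} (h : Ind H S)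
    (hA : A ⊆ S) (h1 : A.card ≤ s) (h2 : s ≤ S.card) :
    ∃ T, A ⊆ T ∧ T ⊆ S ∧ Ind H T ∧ T.card = s := by
  obtain ⟨T, h3, h4, h5⟩ := exists_subsuperset_card_eq hA h1 h2
  exact ⟨T, h3, h4, h.mono h4, h5⟩

end Q114.KC
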