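import Pool.Agent.Q114.KC.Regime
import Mathlib.Combinatorics.SimpleGraph.Extremal.Basic
import Mathlib.Combinatorics.SimpleGraph.Extremal.Turan

/-!
Turán numbers of `k` disjoint copies of `K_p`: translation and constructions.
-/

set_option autoImplicit false
set_option linter.unusedSectionVars false

namespace Q114.KC

open Finset Q127.HS SimpleGraph

/-- `k` disjoint copies of `K_p`. -/
def cliques (k p : ℕ) : SimpleGraph (Fin k × Fin p) where
  Adj a b := a.1 = b.1 ∧ a.2 ≠ b.2
  symm := ⟨fun _ _ h => ⟨h.1.symm, h.2.symm⟩⟩
  loopless := ⟨fun _ h => h.2 rfl⟩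

variable {V : Type} [Fintype V] [DecidableEq V]

theorem two_edges (G : SimpleGraph V) [DecidableRel G.Adj] :
    2 * G.edgeFinset.card + es Gᶜ univ = Fintype.card V * (Fintype.card V - 1) := by
  classical
  rw [← sum_degrees_eq_twice_card_edges, es, ← sum_add_distrib]
  have h : ∀ v ∈ (univ : Finset V), G.degree v + dg Gᶜ univ v = Fintype.card V - 1 := by
    intro v _
    rw [dg_eq, ← card_neighborFinset_eq_degree, ← card_union_of_disjoint]
    · have h1 : G.neighborFinset v ∪ univ.filter (fun w => Gᶜ.Adj v w) = univ.erase v := by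
        ext w
        simp only [mem_union, mem_neighborFinset, mem_filter, mem_univ, true_and, compl_adj,
          mem_erase, and_true]
        constructor
        · rintro (h | h)
          · exact h.ne'
          · exact h.1.symm
        · intro h
          by_cases h2 : G.Adj v w
          · exact Or.inl h2
          · exact Or.inr ⟨h.symm, h2⟩
      rw [h1, card_erase_of_mem (mem_univ v), card_univ]
    · rw [Finset.disjoint_left]
      intro w hw hw'
      rw [mem_neighborFinset] at hw
      exact ((compl_adj G v w).1 (mem_filter.1 hw').2).2 hw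
  rw [sum_congr rfl h, sum_const, card_univ, smul_eq_mul]

theorem contained_of_pack (G : SimpleGraph V) {k p : ℕ} (h : Pack Gᶜ univ k p) :
    (cliques k p) ⊑ G := by
  classical
  obtain ⟨F, h1, h2⟩ := h
  let e : ∀ i, Fin p ≃ F i := fun i => ((F i).equivFinOfCardEq (h1 i).2.1).symm
  refine ⟨⟨⟨fun a => (e a.1 a.2).1, ?_⟩, ?_⟩⟩
  · rintro ⟨i, a⟩ ⟨j, b⟩ ⟨hij, hab⟩
    dsimp only at hij hab ⊢
    subst hij
    have h3 := (h1 i).2.2 (e i a).1 (e i a).2 (e i b).1 (e i b).2
    have hne : (e i a).1 ≠ (e i b).1 := fun h => hab ((e i).injective (Subtype.ext h))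
    by_contra hcon
    exact h3 ((compl_adj G _ _).2 ⟨hne, hcon⟩)
  · rintro ⟨i, a⟩ ⟨j, b⟩ hab
    have hab' : (e i a).1 = (e j b).1 := hab
    by_cases hij : i = j
    · subst hij
      rw [(e i).injective (Subtype.ext hab')]
    · have := Finset.disjoint_left.1 (h2 i j hij) (e i a).2
      exact absurd (hab' ▸ (e j b).2) this

/-- upper bound from a packing theorem -/
theorem ex_le {n k p B : ℕ} (hB : ∀ H : SimpleGraph (Fin n), es H univ < 2 * B →
    Pack H univ k p) : extremalNumber n (cliques k p) ≤ n.choose 2 - B := by
  classical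
  have h0 := extremalNumber_le_iff (V := Fin n) (cliques k p) (n.choose 2 - B)
  rw [Fintype.card_fin] at h0
  rw [h0]
  intro G _ hG
  have h1 := two_edges G
  rw [Fintype.card_fin] at h1
  have h2 := Nat.choose_two_right n
  have h3 : n * (n - 1) = 2 * n.choose 2 := by
    rw [h2, Nat.mul_div_cancel' (Nat.even_mul_pred_self n).two_dvd]
  rw [h3] at h1
  by_contra hlt
  apply hG
  apply contained_of_pack
  apply hB
  omega

/-- complete multipartite graphs with class sizes `s c` -/
theorem le_ex {ι : Type} [Fintype ι] [DecidableEq ι] (s : ι → ℕ) (k p : ℕ)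
    (h : ∑ c, min k (s c) < k * p) :
    (∑ c, s c).choose 2 ≤ extremalNumber (∑ c, s c) (cliques k p) + ∑ c, (s c).choose 2 ∧
      ∑ c, (s c).choose 2 ≤ (∑ c, s c).choose 2 := by
  classical
  obtain ⟨G, hG⟩ : ∃ G : SimpleGraph (Σ c, Fin (s c)), G = (⊤ : SimpleGraph ι).comap Sigma.fst :=
    ⟨_, rfl⟩
  have hadj : ∀ a b, G.Adj a b ↔ a.1 ≠ b.1 := by
    intro a b
    rw [hG, comap_adj, top_adj]
  have hcard : Fintype.card (Σ c, Fin (s c)) = ∑ c, s c := by
    rw [Fintype.card_sigma]
    simp
  have himg : ∀ (c : ι) (z : Σ c, Fin (s c)), z.1 = c →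
      z ∈ univ.image (fun x : Fin (s c) => (⟨c, x⟩ : Σ c, Fin (s c))) := by
    rintro c ⟨c', x⟩ h
    dsimp only at h
    subst h
    exact mem_image_of_mem _ (mem_univ x)
  have hfree : (cliques k p).Free G := by
    rintro ⟨⟨f, hf⟩⟩
    have h1 : (univ : Finset (Fin k × Fin p)).card =
        ∑ c, (univ.filter (fun a => (f a).1 = c)).card := by
      rw [card_eq_sum_card_fiberwise (f := fun a => (f a).1) (t := univ)]
      intro a _
      exact mem_univ _
    have h2 : ∀ c ∈ (univ : Finset ι), (univ.filter (fun a => (f a).1 = c)).card ≤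
        min k (s c) := by
      intro c _
      apply le_min
      · have h3 : (univ.filter (fun a => (f a).1 = c)).card ≤ (univ : Finset (Fin k)).card := by
          apply card_le_card_of_injOn (fun a => a.1)
          · intro a _; exact mem_univ _
          · intro a ha b hb hab
            have ha' := (mem_filter.1 ha).2
            have hb' := (mem_filter.1 hb).2
            by_contra hne
            have h4 : (cliques k p).Adj a b := by
              refine ⟨hab, fun h5 => hne (Prod.ext hab h5)⟩
            have h5 := (hadj _ _).1 (f.map_adj h4)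
            exact h5 (ha'.trans hb'.symm)
        rwa [card_univ, Fintype.card_fin] at h3
      · have h3 : (univ.filter (fun a => (f a).1 = c)).card ≤
            (univ.image (fun x : Fin (s c) => (⟨c, x⟩ : Σ c, Fin (s c)))).card := by
          apply card_le_card_of_injOn (fun a => f a)
          · intro a ha
            have ha' := (mem_filter.1 ha).2
            exact himg c (f a) ha'
          · intro a _ b _ hab
            exact hf hab
        refine h3.trans (card_image_le.trans ?_)
        rw [card_univ, Fintype.card_fin]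
    rw [card_univ, Fintype.card_prod, Fintype.card_fin, Fintype.card_fin] at h1
    have h3 := sum_le_sum h2
    omega
  have h1 := card_edgeFinset_le_extremalNumber hfree
  rw [hcard] at h1
  have h2 := two_edges G
  have h3 : es Gᶜ univ = 2 * ∑ c, (s c).choose 2 := by
    unfold es
    rw [Fintype.sum_sigma, mul_sum]
    apply sum_congr rfl
    intro c _
    have h4 : ∀ x ∈ (univ : Finset (Fin (s c))), dg Gᶜ univ ⟨c, x⟩ = s c - 1 := by
      intro x _
      rw [dg_eq]
      have h5 : univ.filter (fun w => Gᶜ.Adj ⟨c, x⟩ w) =
          ((univ : Finset (Fin (s c))).erase x).image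
            (fun y => (⟨c, y⟩ : Σ c, Fin (s c))) := by
        ext ⟨c', y⟩
        rw [mem_filter, compl_adj, hadj, mem_image]
        simp only [mem_univ, true_and, ne_eq, not_not, mem_erase, and_true]
        constructor
        · rintro ⟨h6, h7⟩
          subst h7
          refine ⟨y, ?_, rfl⟩
          rintro rfl
          exact h6 rfl
        · rintro ⟨z, h6, h7⟩
          cases h7
          refine ⟨?_, rfl⟩
          intro h8
          cases h8
          exact h6 rfl
      rw [h5, card_image_of_injective, card_erase_of_mem (mem_univ _), card_univ,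
        Fintype.card_fin]
      intro a b hab
      cases hab
      rfl
    rw [sum_congr rfl h4, sum_const, card_univ, Fintype.card_fin, smul_eq_mul,
      Nat.choose_two_right, Nat.mul_div_cancel' (Nat.even_mul_pred_self _).two_dvd]
  rw [hcard] at h2
  have h4 : (∑ c, s c) * ((∑ c, s c) - 1) = 2 * (∑ c, s c).choose 2 := by
    rw [Nat.choose_two_right, Nat.mul_div_cancel' (Nat.even_mul_pred_self _).two_dvd]
  constructor
  · omega
  · omega

theorem two_choose (n : ℕ) : 2 * n.choose 2 = n * (n - 1) := by
  rw [Nat.choose_two_right, Nat.mul_div_cancel' (Nat.even_mul_pred_self _).two_dvd]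

theorem choose_two_add (M q : ℕ) : (M + q).choose 2 = M.choose 2 + M * q + q.choose 2 := by
  have h1 := two_choose (M + q)
  have h2 := two_choose M
  have h3 := two_choose q
  rcases M with _ | M
  · simp
  · rcases q with _ | q
    · simp
    · simp only [Nat.add_sub_cancel] at h2 h3
      have h4 : M + 1 + (q + 1) - 1 = M + q + 1 := by omega
      rw [h4] at h1
      nlinarith

/-- edges of the Turán graph -/
theorem turan_edges (q : ℕ) (hq : 1 ≤ q) : ∀ N : ℕ,
    (turanGraph N q).edgeFinset.card + tt q N = N.choose 2 := by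
  intro N
  induction N using Nat.strong_induction_on with
  | _ N ih =>
  rcases lt_or_ge N q with h | h
  · rw [tt_small q N h.le, add_zero]
    have h1 := card_edgeFinset_top_eq_card_choose_two (V := Fin N)
    rw [Fintype.card_fin] at h1
    rw [← h1]
    congr 1
    ext e
    rw [mem_edgeFinset, mem_edgeFinset, turanGraph_eq_top.2 (Or.inr h.le)]
  · obtain ⟨M, rfl⟩ := Nat.exists_eq_add_of_le h
    have h1 := ih M (by omega)
    rw [tt_add q M hq, add_comm q M, card_edgeFinset_turanGraph_add]
    rw [choose_two_add, ← h1]
    obtain ⟨r, rfl⟩ : ∃ r, q = r + 1 := ⟨q - 1, by omega⟩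
    simp only [Nat.add_sub_cancel]
    ring

end Q114.KC
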