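import Pool.Agent.Q114.KC.Base

/-!
Large independent sets (linear form of Turán's theorem) and greedy independent sets.
-/

set_option autoImplicit false
set_option linter.unusedSectionVars false

namespace Q114.KC

open Finset Q127.HS

variable {V : Type*} [DecidableEq V]

/-- linear form of Turán's theorem -/
theorem turan_lin (H : SimpleGraph V) (c : ℕ) : ∀ (n : ℕ) (U : Finset V), U.card = n →
    ∃ S ⊆ U, Ind H S ∧ 2 * c * U.card ≤ c * (c + 1) * S.card + es H U := by
  classical
  intro n
  induction n using Nat.strong_induction_on with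
  | _ n ih =>
  intro U hU
  rcases U.eq_empty_or_nonempty with rfl | hne
  · exact ⟨∅, subset_rfl, fun u hu => absurd hu (notMem_empty u), by simp⟩
  · obtain ⟨x, hx, hmin⟩ := exists_min_image U (fun v => dg H U v) hne
    obtain ⟨W, hW⟩ : ∃ W, W = U.filter (fun v => v = x ∨ H.Adj x v) := ⟨_, rfl⟩
    have hWU : W ⊆ U := hW ▸ filter_subset _ _
    have hxW : x ∈ W := by rw [hW]; exact mem_filter.2 ⟨hx, Or.inl rfl⟩
    have hWcard : W.card = dg H U x + 1 := by
      have h1 : W = insert x (U.filter (fun v => H.Adj x v)) := by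
        ext v
        rw [hW]
        simp only [mem_filter, mem_insert]
        constructor
        · rintro ⟨h1, rfl | h2⟩
          · exact Or.inl rfl
          · exact Or.inr ⟨h1, h2⟩
        · rintro (rfl | ⟨h1, h2⟩)
          · exact ⟨hx, Or.inl rfl⟩
          · exact ⟨h1, Or.inr h2⟩
      rw [h1, card_insert_of_notMem, dg_eq]
      simp
    have hcard : (U \ W).card + (dg H U x + 1) = U.card := by
      rw [← hWcard]; exact card_sdiff_add_card_eq_card hWU
    obtain ⟨S', hS'U, hS'i, hS'⟩ := ih (U \ W).card (by omega) (U \ W) rfl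
    have hnadj : ∀ s ∈ S', s ≠ x ∧ ¬ H.Adj x s := by
      intro s hs
      have h1 := mem_sdiff.1 (hS'U hs)
      constructor
      · rintro rfl; exact h1.2 hxW
      · intro h2; apply h1.2; rw [hW]; exact mem_filter.2 ⟨h1.1, Or.inr h2⟩
    have hxS' : x ∉ S' := fun h => (hnadj x h).1 rfl
    refine ⟨insert x S', insert_subset hx (hS'U.trans sdiff_subset), ?_, ?_⟩
    · intro a ha b hb
      rcases mem_insert.1 ha with ha' | ha'
      · rcases mem_insert.1 hb with hb' | hb'
        · rw [ha', hb']; exact H.irrefl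
        · rw [ha']; exact (hnadj b hb').2
      · rcases mem_insert.1 hb with hb' | hb'
        · rw [hb']; exact fun h => (hnadj a ha').2 h.symm
        · exact hS'i a ha' b hb'
    · rw [card_insert_of_notMem hxS']
      have hes : es H (U \ W) + (dg H U x + 1) * dg H U x ≤ es H U := by
        unfold es
        rw [← sum_sdiff hWU]
        apply add_le_add
        · exact sum_le_sum fun v _ => dg_mono H sdiff_subset v
        · rw [← hWcard, ← smul_eq_mul, ← sum_const]
          exact sum_le_sum fun v hv => hmin v (hWU hv)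
      obtain ⟨δ, hδ⟩ : ∃ δ, δ = dg H U x := ⟨_, rfl⟩
      rw [← hδ] at hes hcard
      rw [← hcard]
      have key : 2 * c * (δ + 1) ≤ c * (c + 1) + (δ + 1) * δ := by
        rcases le_or_gt c δ with h | h
        · obtain ⟨t, rfl⟩ := Nat.exists_eq_add_of_le h
          nlinarith
        · obtain ⟨t, rfl⟩ := Nat.exists_eq_add_of_lt h
          nlinarith
      nlinarith

/-- a maximal independent subset of `U` -/
def MaxInd (H : SimpleGraph V) (U M : Finset V) : Prop :=
  M ⊆ U ∧ Ind H M ∧ ∀ v ∈ U, v ∉ M → ∃ x ∈ M, H.Adj x v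

/-- every vertex is covered by a vertex of `I` of at least its degree, or it is not covered and
its degree is at most all degrees in `I` -/
def GD (H : SimpleGraph V) (U I : Finset V) : Prop :=
  ∀ v ∈ U, (∃ x ∈ I, (v = x ∨ H.Adj x v) ∧ dg H U v ≤ dg H U x) ∨
    ((∀ x ∈ I, v ≠ x ∧ ¬ H.Adj x v) ∧ ∀ x ∈ I, dg H U v ≤ dg H U x)

theorem greedy (H : SimpleGraph V) (U : Finset V) (p : ℕ)
    (hno : ¬ ∃ M, MaxInd H U M ∧ M.card < p) :
    ∀ j ≤ p, ∃ I ⊆ U, Ind H I ∧ I.card = j ∧ GD H U I := by
  classical
  intro j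
  induction j with
  | zero =>
    intro _
    refine ⟨∅, empty_subset _, fun u hu => absurd hu (notMem_empty u), card_empty, ?_⟩
    intro v _
    exact Or.inr ⟨fun x hx => absurd hx (notMem_empty x), fun x hx => absurd hx (notMem_empty x)⟩
  | succ j ih =>
    intro hj
    obtain ⟨I, hIU, hi, hc, hg⟩ := ih (by omega)
    obtain ⟨R, hR⟩ : ∃ R, R = U.filter (fun v => ∀ x ∈ I, v ≠ x ∧ ¬ H.Adj x v) := ⟨_, rfl⟩
    have hRne : R.Nonempty := by
      by_contra hcon
      rw [not_nonempty_iff_eq_empty] at hcon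
      apply hno
      refine ⟨I, ⟨hIU, hi, ?_⟩, by omega⟩
      intro v hv hvI
      by_contra h2
      push Not at h2
      have : v ∈ R := by
        rw [hR]
        exact mem_filter.2 ⟨hv, fun x hx => ⟨fun h => hvI (h ▸ hx), h2 x hx⟩⟩
      rw [hcon] at this
      exact notMem_empty v this
    obtain ⟨w, hw, hmax⟩ := exists_max_image R (fun v => dg H U v) hRne
    have hw' := hw
    rw [hR, mem_filter] at hw'
    have hwI : w ∉ I := fun h => (hw'.2 w h).1 rfl
    refine ⟨insert w I, insert_subset hw'.1 hIU, ?_, ?_, ?_⟩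
    · intro a ha b hb
      rcases mem_insert.1 ha with ha' | ha'
      · rcases mem_insert.1 hb with hb' | hb'
        · rw [ha', hb']; exact H.irrefl
        · rw [ha']; exact fun h => (hw'.2 b hb').2 h.symm
      · rcases mem_insert.1 hb with hb' | hb'
        · rw [hb']; exact fun h => (hw'.2 a ha').2 h
        · exact hi a ha' b hb'
    · rw [card_insert_of_notMem hwI, hc]
    · intro v hv
      rcases hg v hv with ⟨x, hx, h1, h2⟩ | ⟨h1, h2⟩
      · exact Or.inl ⟨x, mem_insert_of_mem hx, h1, h2⟩
      · have hvR : v ∈ R := by rw [hR]; exact mem_filter.2 ⟨hv, h1⟩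
        have h3 := hmax v hvR
        by_cases h4 : v = w ∨ H.Adj w v
        · exact Or.inl ⟨w, mem_insert_self _ _, h4, h3⟩
        · push Not at h4
          refine Or.inr ⟨?_, ?_⟩
          · intro x hx
            rcases mem_insert.1 hx with rfl | hx
            · exact h4
            · exact h1 x hx
          · intro x hx
            rcases mem_insert.1 hx with rfl | hx
            · exact h3
            · exact h2 x hx

/-- the inequality for greedy sets -/
theorem greedy_ineq (H : SimpleGraph V) (U I : Finset V) (r : ℕ) (hIU : I ⊆ U)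
    (hne : I.Nonempty) (hg : GD H U I) (hΔ : ∀ v ∈ U, dg H U v + 1 ≤ r) :
    ∃ δ, δ + 1 ≤ r ∧ es H U + r * (I.card * δ) ≤ r * (∑ x ∈ I, dg H U x) + U.card * δ := by
  classical
  obtain ⟨z, hz, hmin⟩ := exists_min_image I (fun v => dg H U v) hne
  obtain ⟨δ, hδ⟩ : ∃ δ, δ = dg H U z := ⟨_, rfl⟩
  refine ⟨δ, by rw [hδ]; exact hΔ z (hIU hz), ?_⟩
  have h1 : ∑ v ∈ U, (dg H U v - δ) ≤ ∑ x ∈ I, r * (dg H U x - δ) := by
    have h2 : ∀ x ∈ I, ∑ v ∈ U, (if v = x ∨ H.Adj x v then dg H U x - δ else 0) ≤
        r * (dg H U x - δ) := by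
      intro x hx
      rw [← sum_filter, sum_const, smul_eq_mul]
      apply Nat.mul_le_mul_right
      refine le_trans ?_ (hΔ x (hIU hx))
      have h3 : U.filter (fun v => v = x ∨ H.Adj x v) ⊆
          insert x (U.filter (fun v => H.Adj x v)) := by
        intro v hv
        rcases mem_filter.1 hv with ⟨h4, h5 | h5⟩
        · exact h5 ▸ mem_insert_self _ _
        · exact mem_insert_of_mem (mem_filter.2 ⟨h4, h5⟩)
      refine (card_le_card h3).trans ((card_insert_le _ _).trans ?_)
      rw [dg_eq]
    refine le_trans ?_ (sum_le_sum h2)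
    rw [sum_comm]
    apply sum_le_sum
    intro v hv
    rcases hg v hv with ⟨x, hx, h3, h4⟩ | ⟨_, h3⟩
    · refine le_trans ?_ (single_le_sum (f := fun x => if v = x ∨ H.Adj x v then
        dg H U x - δ else 0) (fun _ _ => Nat.zero_le _) hx)
      rw [if_pos h3]
      omega
    · have := h3 z hz
      rw [← hδ] at this
      rw [Nat.sub_eq_zero_of_le this]
      exact Nat.zero_le _
  have h2 : es H U ≤ ∑ v ∈ U, (dg H U v - δ) + U.card * δ := by
    unfold es
    rw [← smul_eq_mul (U.card), ← sum_const, ← sum_add_distrib]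
    exact sum_le_sum fun v _ => by omega
  have h3 : ∑ x ∈ I, dg H U x = ∑ x ∈ I, (dg H U x - δ) + I.card * δ := by
    rw [← smul_eq_mul (I.card), ← sum_const, ← sum_add_distrib]
    apply sum_congr rfl
    intro x hx
    have := hmin x hx
    omega
  rw [← mul_sum] at h1
  rw [h3, Nat.mul_add]
  linarith

end Q114.KC
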