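import Pool.Agent.Q114.KC.Star
import Pool.Agent.Q127.HS.Main

/-!
Application of the Hajnal-Szemerédi theorem.
-/

set_option autoImplicit false
set_option linter.unusedSectionVars false

namespace Q114.KC

open Finset Q127.HS

variable {V : Type*} [DecidableEq V]

theorem hs_aux (H : SimpleGraph V) (U : Finset V) (c k p : ℕ)
    (hΔ : ∀ v ∈ U, dg H U v + 1 ≤ c) (hk : k ≤ c) (hp : 1 ≤ p) (hU : U.card ≤ c * p)
    (hn : c * p + k ≤ U.card + c) : Pack H U k p := by
  classical
  rcases Nat.eq_zero_or_pos c with rfl | hc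
  · have : k = 0 := by omega
    subst this
    exact Pack.zero H U p
  obtain ⟨j, hj⟩ : ∃ j, U.card + j = c * p := ⟨c * p - U.card, by omega⟩
  have hjc : j + k ≤ c := by omega
  obtain ⟨H', hH'⟩ : ∃ H' : SimpleGraph (V ⊕ ℕ), H' = H.map Function.Embedding.inl := ⟨_, rfl⟩
  obtain ⟨U', hU'⟩ : ∃ U' : Finset (V ⊕ ℕ), U' = U.map Function.Embedding.inl ∪
    (range j).map Function.Embedding.inr := ⟨_, rfl⟩
  have hadj : ∀ x y, H'.Adj (Sum.inl x) (Sum.inl y) ↔ H.Adj x y := by
    intro x y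
    rw [hH', SimpleGraph.map_adj]
    constructor
    · rintro ⟨a, b, h, h1, h2⟩
      cases h1; cases h2
      exact h
    · intro h
      exact ⟨x, y, h, rfl, rfl⟩
  have hadj2 : ∀ x y, ¬ H'.Adj x (Sum.inr y) := by
    intro x y h
    rw [hH', SimpleGraph.map_adj] at h
    obtain ⟨a, b, h, h1, h2⟩ := h
    cases h2
  have hmemU' : ∀ a, a ∈ U' ↔ (∃ v ∈ U, a = Sum.inl v) ∨ (∃ i ∈ range j, a = Sum.inr i) := by
    intro a
    rw [hU', mem_union, mem_map, mem_map]
    simp only [Function.Embedding.inl_apply, Function.Embedding.inr_apply]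
    constructor
    · rintro (⟨v, h, rfl⟩ | ⟨v, h, rfl⟩)
      · exact Or.inl ⟨v, h, rfl⟩
      · exact Or.inr ⟨v, h, rfl⟩
    · rintro (⟨v, h, rfl⟩ | ⟨v, h, rfl⟩)
      · exact Or.inl ⟨v, h, rfl⟩
      · exact Or.inr ⟨v, h, rfl⟩
  have hcardU' : U'.card = c * p := by
    rw [hU', card_union_of_disjoint, card_map, card_map, card_range, hj]
    rw [disjoint_left]
    intro a ha hb
    obtain ⟨x, _, rfl⟩ := mem_map.1 ha
    obtain ⟨y, _, h⟩ := mem_map.1 hb
    cases h
  have hdeg : ∀ a ∈ U', dg H' U' a ≤ c - 1 := by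
    intro a ha
    rcases (hmemU' a).1 ha with ⟨v, hv, rfl⟩ | ⟨i, _, rfl⟩
    · have h1 : dg H' U' (Sum.inl v) ≤ dg H U v := by
        rw [dg_eq, dg_eq]
        have h2 : U'.filter (fun w => H'.Adj (Sum.inl v) w) ⊆
            (U.filter (fun w => H.Adj v w)).map Function.Embedding.inl := by
          intro b hb
          obtain ⟨h3, h4⟩ := mem_filter.1 hb
          rcases (hmemU' b).1 h3 with ⟨w, hw, rfl⟩ | ⟨i, _, rfl⟩
          · rw [mem_map]
            exact ⟨w, mem_filter.2 ⟨hw, (hadj v w).1 h4⟩, rfl⟩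
          · exact absurd h4 (hadj2 _ _)
        exact (card_le_card h2).trans (by rw [card_map])
      have := hΔ v hv
      omega
    · have h1 : dg H' U' (Sum.inr i) = 0 := dg_zero.2 fun w _ h => hadj2 w i h.symm
      omega
  have : Nonempty (Fin c) := ⟨⟨0, hc⟩⟩
  obtain ⟨g, hg, hgc⟩ := exact_colouring (ι := Fin c) _ H' U' univ (fun _ => p) (c - 1) p rfl hdeg
    (fun _ _ => le_rfl) (by rw [hcardU', Nat.sub_add_cancel hc])
    (by rw [sum_const, card_univ, Fintype.card_fin, smul_eq_mul, hcardU'])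
  obtain ⟨B, hB⟩ : ∃ B, B = (range j).image (fun i => g (Sum.inr i)) := ⟨_, rfl⟩
  have hBcard : B.card ≤ j := by
    rw [hB]
    exact card_image_le.trans (by rw [card_range])
  have hBmem : ∀ l ∈ range j, g (Sum.inr l) ∈ B := fun l hl => by
    rw [hB]; exact mem_image_of_mem _ hl
  have hgood : k ≤ (univ \ B).card := by
    have h1 := card_sdiff_add_card_eq_card (subset_univ B)
    rw [card_univ, Fintype.card_fin] at h1
    omega
  obtain ⟨e⟩ : Nonempty (Fin k ↪ {x // x ∈ univ \ B}) := by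
    rw [Function.Embedding.nonempty_iff_card_le]
    rw [Fintype.card_fin, Fintype.card_coe]
    exact hgood
  refine ⟨fun i => U.filter (fun v => g (Sum.inl v) = (e i).1), ?_, ?_⟩
  · intro i
    have hi := (mem_sdiff.1 (e i).2).2
    refine ⟨filter_subset _ _, ?_, ?_⟩
    · have h1 : (cl U' g (e i).1).card = p := hgc (e i).1 (mem_univ _)
      show (U.filter (fun v => g (Sum.inl v) = (e i).1)).card = p
      rw [← h1]
      have h2 : cl U' g (e i).1 =
          (U.filter (fun v => g (Sum.inl v) = (e i).1)).map Function.Embedding.inl := by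
        ext a
        rw [mem_cl, mem_map, hmemU']
        constructor
        · rintro ⟨⟨v, hv, rfl⟩ | ⟨l, hl, rfl⟩, h3⟩
          · exact ⟨v, mem_filter.2 ⟨hv, h3⟩, rfl⟩
          · exfalso
            apply hi
            rw [← h3]
            exact hBmem l hl
        · rintro ⟨v, hv, rfl⟩
          obtain ⟨h3, h4⟩ := mem_filter.1 hv
          exact ⟨Or.inl ⟨v, h3, rfl⟩, h4⟩
      rw [h2, card_map]
    · intro a ha b hb hab
      obtain ⟨h3, h4⟩ := mem_filter.1 ha
      obtain ⟨h5, h6⟩ := mem_filter.1 hb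
      exact hg.2 (Sum.inl a) ((hmemU' _).2 (Or.inl ⟨a, h3, rfl⟩)) (Sum.inl b)
        ((hmemU' _).2 (Or.inl ⟨b, h5, rfl⟩)) ((hadj a b).2 hab) (h4.trans h6.symm)
  · intro i i' hii
    rw [disjoint_left]
    intro a ha hb
    apply hii
    apply e.injective
    apply Subtype.ext
    rw [← (mem_filter.1 ha).2, ← (mem_filter.1 hb).2]

/-- **Consequence of the Hajnal-Szemerédi theorem.** -/
theorem hs_pack (H : SimpleGraph V) (U : Finset V) (c k p : ℕ)
    (hΔ : ∀ v ∈ U, dg H U v + 1 ≤ c) (hk : k ≤ c) (hp : 1 ≤ p)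
    (hn : c * p + k ≤ U.card + c) : Pack H U k p := by
  rcases le_or_gt U.card (c * p) with h | h
  · exact hs_aux H U c k p hΔ hk hp h hn
  · obtain ⟨U', hU', hc⟩ := exists_subset_card_eq h.le
    refine Pack.mono (hs_aux H U' c k p ?_ hk hp hc.le (by omega)) hU'
    intro v hv
    exact (Nat.succ_le_succ (dg_mono H hU' v)).trans (hΔ v (hU' hv))

end Q114.KC
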