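import Pool.Agent.Q114.KC.Ex

/-!
The constructions.
-/

set_option autoImplicit false
set_option linter.unusedSectionVars false

namespace Q114.KC

open Finset SimpleGraph

/-- Write `m` as `(k-1) x + k y` with `x ≤ k - 1`. -/
theorem frob (l m : ℕ) (hm : (l + 1) * l ≤ m) :
    ∃ x y, (l + 1) * x + (l + 2) * y = m ∧ x ≤ l + 1 := by
  obtain ⟨q, hq⟩ : ∃ q, q = m / (l + 2) := ⟨_, rfl⟩
  obtain ⟨t, ht⟩ : ∃ t, t = m % (l + 2) := ⟨_, rfl⟩
  have h1 : (l + 2) * q + t = m := by rw [hq, ht]; exact Nat.div_add_mod m (l + 2)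
  have h2 : t < l + 2 := by rw [ht]; exact Nat.mod_lt _ (by omega)
  rcases Nat.eq_zero_or_pos t with h0 | h0
  · exact ⟨0, q, by rw [← h1, h0]; ring, by omega⟩
  · obtain ⟨x, hx⟩ : ∃ x, x + t = l + 2 := ⟨l + 2 - t, by omega⟩
    have h3 : x ≤ q + 1 := by
      by_contra hlt
      have h4 : q + 2 ≤ x := by omega
      obtain ⟨d, hd⟩ := Nat.exists_eq_add_of_le h4
      have h5 : l = q + 2 + d + t - 2 := by omega
      have h6 : l = q + d + t := by omega
      subst h6
      nlinarith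
    obtain ⟨y, hy⟩ := Nat.exists_eq_add_of_le h3
    refine ⟨x, y, ?_, by omega⟩
    have h7 : t = l + 2 - x := by omega
    have h8 : q + 1 = x + y := hy
    have h9 : (l + 1) * x + (l + 2) * y + (l + 2) = m + (l + 2) := by
      calc (l + 1) * x + (l + 2) * y + (l + 2) = (l + 1) * x + (l + 2) * y + (x + t) := by rw [hx]
        _ = (l + 2) * (x + y) + t := by ring
        _ = (l + 2) * (q + 1) + t := by rw [h8]
        _ = (l + 2) * q + t + (l + 2) := by ring
        _ = m + (l + 2) := by rw [h1]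
    omega

/-- first range -/
theorem lower1 (k p n m : ℕ) (hk : 2 ≤ k) (hkp : k ≤ p + 1) (hn : n + 1 = k * p + m)
    (hm : (k - 1) * (k - 2) ≤ m) (hn2 : n + 2 ≤ (2 * k - 1) * p) :
    n.choose 2 ≤ extremalNumber n (cliques k p) + (2 * k - 1) * m ∧
      (2 * k - 1) * m ≤ n.choose 2 := by
  classical
  obtain ⟨l, rfl⟩ : ∃ l, k = l + 2 := ⟨k - 2, by omega⟩
  have e1 : l + 2 - 1 = l + 1 := by omega
  have e2 : l + 2 - 2 = l := by omega
  have e3 : 2 * (l + 2) - 1 = 2 * l + 3 := by omega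
  rw [e1, e2] at hm
  rw [e3] at hn2 ⊢
  obtain ⟨x, y, hxy, hx⟩ := frob l m hm
  have h1 : 2 * m + x ≤ n := by
    have : (2 * l + 3) * p + p = 2 * ((l + 2) * p) := by ring
    omega
  have h2 : (2 * l + 3) * x + (2 * l + 4) * y = 2 * m + x := by
    rw [← hxy]; ring
  obtain ⟨w, hw⟩ : ∃ w, (2 * l + 3) * x + (2 * l + 4) * y + w = n := ⟨n - (2 * m + x), by omega⟩
  obtain ⟨s, hs⟩ : ∃ s : Fin x ⊕ (Fin y ⊕ Fin w) → ℕ,
      s = Sum.elim (fun _ => 2 * l + 3) (Sum.elim (fun _ => 2 * l + 4) (fun _ => 1)) := ⟨_, rfl⟩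
  have hsum : ∑ c, s c = n := by
    rw [hs, Fintype.sum_sum_type, Fintype.sum_sum_type]
    simp only [Sum.elim_inl, Sum.elim_inr, sum_const, card_univ, Fintype.card_fin, smul_eq_mul]
    rw [← hw]; ring
  have hmin : ∑ c, min (l + 2) (s c) < (l + 2) * p := by
    rw [hs, Fintype.sum_sum_type, Fintype.sum_sum_type]
    simp only [Sum.elim_inl, Sum.elim_inr, sum_const, card_univ, Fintype.card_fin, smul_eq_mul]
    rw [min_eq_left (by omega : l + 2 ≤ 2 * l + 3), min_eq_left (by omega : l + 2 ≤ 2 * l + 4),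
      min_eq_right (by omega : 1 ≤ l + 2)]
    have h3 : x * (l + 2) + (y * (l + 2) + w * 1) + m = n := by
      rw [← hxy, ← hw]; ring
    omega
  have h4 := le_ex s (l + 2) p hmin
  rw [hsum] at h4
  have h5 : ∑ c, (s c).choose 2 = (2 * l + 3) * m := by
    rw [hs, Fintype.sum_sum_type, Fintype.sum_sum_type]
    simp only [Sum.elim_inl, Sum.elim_inr, sum_const, card_univ, Fintype.card_fin, smul_eq_mul]
    have h6 := two_choose (2 * l + 3)
    have h7 := two_choose (2 * l + 4)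
    have h8 : 2 * l + 3 - 1 = 2 * (l + 1) := by omega
    have h9 : 2 * l + 4 - 1 = 2 * l + 3 := by omega
    rw [h8] at h6
    rw [h9] at h7
    have h10 : (2 * l + 3).choose 2 = (2 * l + 3) * (l + 1) := by nlinarith
    have h11 : (2 * l + 4).choose 2 = (2 * l + 3) * (l + 2) := by nlinarith
    rw [h10, h11, ← hxy]
    have h12 : Nat.choose 1 2 = 0 := rfl
    rw [h12]
    ring
  rw [h5] at h4
  exact h4

theorem sum_if (q t a b : ℕ) (ht : t ≤ q) :
    ∑ j : Fin q, (if (j : ℕ) < t then a else b) = t * a + (q - t) * b := by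
  rw [Fin.sum_univ_eq_sum_range (fun j => if j < t then a else b) q]
  obtain ⟨d, rfl⟩ := Nat.exists_eq_add_of_le ht
  rw [sum_range_add]
  have h1 : ∀ x ∈ range t, (if x < t then a else b) = a := fun x hx => if_pos (mem_range.1 hx)
  have h2 : ∀ x ∈ range d, (if t + x < t then a else b) = b := fun x _ => if_neg (by omega)
  rw [sum_congr rfl h1, sum_congr rfl h2, sum_const, sum_const, card_range, card_range,
    smul_eq_mul, smul_eq_mul, Nat.add_sub_cancel_left]

/-- second range -/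
theorem lower2 (k p N : ℕ) (hk : 1 ≤ k) (hp : 2 ≤ p) :
    (k - 1 + N).choose 2 ≤ extremalNumber (k - 1 + N) (cliques k p) + tt (p - 1) N := by
  classical
  obtain ⟨q, rfl⟩ : ∃ q, p = q + 1 := ⟨p - 1, by omega⟩
  obtain ⟨l, rfl⟩ : ∃ l, k = l + 1 := ⟨k - 1, by omega⟩
  simp only [Nat.add_sub_cancel]
  obtain ⟨c, hc⟩ : ∃ c, c = N / q := ⟨_, rfl⟩
  obtain ⟨t, ht⟩ : ∃ t, t = N % q := ⟨_, rfl⟩
  have h1 : c * q + t = N := by rw [hc, ht, mul_comm]; exact Nat.div_add_mod N q
  have h2 : t < q := by rw [ht]; exact Nat.mod_lt _ (by omega)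
  obtain ⟨s, hs⟩ : ∃ s : Fin l ⊕ Fin q → ℕ,
      s = Sum.elim (fun _ : Fin l => 1) (fun j : Fin q => if (j : ℕ) < t then c + 1 else c) :=
    ⟨_, rfl⟩
  obtain ⟨d, hd⟩ := Nat.exists_eq_add_of_lt h2
  have hqt : q - t = d + 1 := by omega
  have hsum : ∑ i, s i = l + N := by
    rw [hs, Fintype.sum_sum_type]
    simp only [Sum.elim_inl, Sum.elim_inr, sum_const, card_univ, Fintype.card_fin, smul_eq_mul]
    rw [sum_if q t _ _ h2.le, hqt, ← h1, hd]; ring
  have hmin : ∑ i, min (l + 1) (s i) < (l + 1) * (q + 1) := by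
    rw [hs, Fintype.sum_sum_type]
    simp only [Sum.elim_inl, Sum.elim_inr, sum_const, card_univ, Fintype.card_fin, smul_eq_mul]
    have h3 : ∑ j : Fin q, min (l + 1) (if (j : ℕ) < t then c + 1 else c) ≤ q * (l + 1) := by
      refine (sum_le_sum (fun j _ => min_le_left (l + 1) _)).trans ?_
      rw [sum_const, card_univ, Fintype.card_fin, smul_eq_mul]
    have h4 : l * min (l + 1) 1 ≤ l * 1 := Nat.mul_le_mul_left _ (min_le_right _ _)
    have h5 : (l + 1) * (q + 1) = q * (l + 1) + l * 1 + 1 := by ring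
    omega
  have h4 := le_ex s (l + 1) (q + 1) hmin
  rw [hsum] at h4
  have h5 : ∑ i, (s i).choose 2 = tt q N := by
    rw [hs, Fintype.sum_sum_type]
    simp only [Sum.elim_inl, Sum.elim_inr, sum_const, card_univ, Fintype.card_fin, smul_eq_mul]
    have h12 : Nat.choose 1 2 = 0 := rfl
    have h6 : ∀ j ∈ (univ : Finset (Fin q)), (if (j : ℕ) < t then c + 1 else c).choose 2 =
        if (j : ℕ) < t then (c + 1).choose 2 else c.choose 2 := by
      intro j _
      split_ifs <;> rfl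
    rw [h12, sum_congr rfl h6, sum_if q t _ _ h2.le, hqt]
    have h7 := tt_val q (by omega) c t h2.le
    rw [h1] at h7
    have h8 := two_choose (c + 1)
    have h9 := two_choose c
    simp only [Nat.add_sub_cancel] at h8
    have h10 : 2 * (l * 0 + (t * (c + 1).choose 2 + (d + 1) * c.choose 2)) = 2 * tt q N := by
      rw [h7]
      calc 2 * (l * 0 + (t * (c + 1).choose 2 + (d + 1) * c.choose 2))
          = t * (2 * (c + 1).choose 2) + (d + 1) * (2 * c.choose 2) := by ring
        _ = t * ((c + 1) * c) + (d + 1) * (c * (c - 1)) := by rw [h8, h9]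
        _ = c * (c - 1) * q + 2 * (c * t) := by
          rw [hd]
          rcases Nat.eq_zero_or_pos c with h0 | h0
          · rw [h0]; simp
          · obtain ⟨b, hb⟩ : ∃ b, c = b + 1 := ⟨c - 1, by omega⟩
            rw [hb]
            simp only [Nat.add_sub_cancel]
            ring
    omega
  rw [h5] at h4
  exact h4.1

end Q114.KC
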