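import Pool.Agent.Q114.KC.HS

/-!
The second range: `n ≥ (2k-1)p - 1`.
-/

set_option autoImplicit false
set_option linter.unusedSectionVars false

namespace Q114.KC

open Finset Q127.HS

variable {V : Type*} [DecidableEq V]

/-- the number of pairs of vertices inside the classes of the balanced partition of `n` vertices
into `q` classes -/
def tt (q n : ℕ) : ℕ := ∑ i ∈ range n, i / q

theorem tt_succ (q n : ℕ) : tt q (n + 1) = tt q n + n / q := by
  unfold tt
  rw [sum_range_succ]

theorem tt_add (q n : ℕ) (hq : 1 ≤ q) : tt q (q + n) = tt q n + n := by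
  unfold tt
  rw [sum_range_add]
  have h1 : ∑ x ∈ range q, x / q = 0 := by
    apply sum_eq_zero
    intro x hx
    exact Nat.div_eq_of_lt (mem_range.1 hx)
  have h2 : ∀ x ∈ range n, (q + x) / q = x / q + 1 := by
    intro x _
    rw [Nat.add_div_left _ (by omega)]
  rw [h1, sum_congr rfl h2, sum_add_distrib, sum_const, card_range, smul_eq_mul, mul_one, zero_add]

theorem tt_small (q n : ℕ) (hn : n ≤ q) : tt q n = 0 := by
  unfold tt
  apply sum_eq_zero
  intro x hx
  exact Nat.div_eq_of_lt (lt_of_lt_of_le (mem_range.1 hx) hn)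

/-- `c` full rounds and `s` more vertices -/
theorem tt_val (q : ℕ) (hq : 1 ≤ q) : ∀ c s : ℕ, s ≤ q →
    2 * tt q (c * q + s) = c * (c - 1) * q + 2 * (c * s) := by
  intro c
  induction c with
  | zero =>
    intro s hs
    rw [Nat.zero_mul, Nat.zero_add, tt_small q s hs]
    simp
  | succ c ih =>
    intro s hs
    have h1 : (c + 1) * q + s = q + (c * q + s) := by ring
    rw [h1, tt_add q _ hq, Nat.mul_add, ih s hs]
    simp only [Nat.add_sub_cancel]
    rcases Nat.eq_zero_or_pos c with rfl | hc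
    · simp
    · obtain ⟨d, rfl⟩ : ∃ d, c = d + 1 := ⟨c - 1, by omega⟩
      simp only [Nat.add_sub_cancel]
      ring

/-- **Second range.** `|U| + 2 ≥ (2k-1)p`, `p ≥ k - 1`. -/
theorem second (H : SimpleGraph V) (k p : ℕ) (hk : 2 ≤ k) (hp : 2 ≤ p) (hkp : k ≤ p + 1) :
    ∀ (j : ℕ) (U : Finset V), U.card + 2 = (2 * k - 1) * p + j →
      es H U < 2 * tt (p - 1) (U.card + 1 - k) → Pack H U k p := by
  classical
  intro j
  obtain ⟨q, rfl⟩ : ∃ q, p = q + 1 := ⟨p - 1, by omega⟩
  obtain ⟨l, rfl⟩ : ∃ l, k = l + 2 := ⟨k - 2, by omega⟩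
  have hk1 : 2 * (l + 2) - 1 = 2 * l + 3 := by omega
  rw [hk1]
  simp only [Nat.add_sub_cancel]
  induction j with
  | zero =>
    intro U hU he
    obtain ⟨m, hm⟩ : ∃ m, m + 1 = (l + 1) * (q + 1) :=
      ⟨(l + 1) * (q + 1) - 1, Nat.sub_add_cancel (Nat.mul_pos (by omega) (by omega))⟩
    have h1 : (2 * l + 3) * (q + 1) = (l + 2) * (q + 1) + (l + 1) * (q + 1) := by ring
    apply star H (l + 2) (q + 1) m U.card U rfl
    · omega
    · refine lt_of_lt_of_le he (le_of_eq ?_)
      have h2 : U.card + 1 - (l + 2) = (2 * l + 3) * q + l := by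
        have : (2 * l + 3) * (q + 1) = (2 * l + 3) * q + (2 * l + 3) := by ring
        omega
      rw [h2, tt_val q (by omega) (2 * l + 3) l (by omega), hk1]
      have h3 : 2 * l + 3 - 1 = 2 * (l + 1) := by omega
      rw [h3]
      have h4 : m = (l + 1) * q + l := by
        have : (l + 1) * (q + 1) = (l + 1) * q + (l + 1) := by ring
        omega
      rw [h4]
      ring
  | succ j ih =>
    intro U hU he
    have h0 : (2 * l + 3) * (q + 1) = (2 * l + 3) * q + (2 * l + 3) := by ring
    obtain ⟨N, hN⟩ : ∃ N, U.card = N + (l + 2) := ⟨U.card - (l + 2), by omega⟩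
    have h1 : U.card + 1 - (l + 2) = N + 1 := by omega
    rw [h1, tt_succ] at he
    obtain ⟨c, hc⟩ : ∃ c, c = N / q := ⟨_, rfl⟩
    rw [← hc] at he
    have hcq : c * q ≤ N := by rw [hc]; exact Nat.div_mul_le_self N q
    have hcl : 2 * l + 3 ≤ c := by
      rw [hc, Nat.le_div_iff_mul_le (by omega)]
      omega
    by_cases hΔ : ∀ v ∈ U, dg H U v + 1 ≤ c
    · apply hs_pack H U c (l + 2) (q + 1) hΔ (by omega) (by omega)
      have : c * (q + 1) = c * q + c := by ring
      omega
    · push Not at hΔ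
      obtain ⟨v, hv, hvc⟩ := hΔ
      have h2 := es_erase (H := H) hv
      have h3 := card_erase_of_mem hv
      refine Pack.mono (ih (U.erase v) (by omega) ?_) (erase_subset _ _)
      have h4 : (U.erase v).card + 1 - (l + 2) = N := by omega
      rw [h4]
      omega

end Q114.KC
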