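import Pool.Agent.Q114.KC.Stuck

/-!
Fewer than `(2k-1)(n-kp+1)` edges: there are `k` disjoint independent sets of size `p`.
-/

set_option autoImplicit false
set_option linter.unusedSectionVars false

namespace Q114.KC

open Finset Q127.HS

variable {V : Type*} [DecidableEq V]

/-- an independent set of size `p` meeting many edges -/
theorem heavy (H : SimpleGraph V) (U : Finset V) (k p m r : ℕ) (hr : r + 1 = 2 * k)
    (hk : 2 ≤ k) (hn : U.card + 1 = k * p + m) (hp : 1 ≤ p)
    (hΔ : ∀ v ∈ U, dg H U v + 1 ≤ r) (he : es H U < 2 * r * m) :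
    ∃ I ⊆ U, Ind H I ∧ I.card = p ∧ es H (U \ I) < 2 * (r - 2) * m := by
  classical
  have hr3 : 3 ≤ r := by omega
  obtain ⟨q, rfl⟩ : ∃ q, r = q + 2 := ⟨r - 2, by omega⟩
  have hq : 1 ≤ q := by omega
  simp only [Nat.add_sub_cancel]
  have hkp : 2 * (k * p) = (q + 3) * p := by
    rw [← mul_assoc, ← hr]
  have hm : 1 ≤ m := by
    by_contra h
    have : m = 0 := by omega
    subst this
    simp at he
  by_cases hst : ∃ M, MaxInd H U M ∧ M.card < p
  · -- a small maximal independent set
    have hUle : U.card + (q + 2) ≤ (q + 2) * p := by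
      obtain ⟨M, hM, hMp⟩ := hst
      have h1 := count_max hM hΔ
      calc U.card + (q + 2) ≤ (q + 2) * M.card + (q + 2) := by omega
        _ = (q + 2) * (M.card + 1) := by ring
        _ ≤ _ := Nat.mul_le_mul_left _ hMp
    have hN : ∃ N ⊆ U, Ind H N ∧ p ≤ N.card := by
      obtain ⟨S, hS, hi, h1⟩ := turan_lin H (q + 1) U.card U rfl
      refine ⟨S, hS, hi, ?_⟩
      by_contra hlt
      have hlt' : S.card + 1 ≤ p := by omega
      have h2 : (q + 1) * (q + 1 + 1) * S.card + (q + 1) * (q + 2) ≤ (q + 1) * (q + 2) * p := by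
        calc (q + 1) * (q + 1 + 1) * S.card + (q + 1) * (q + 2)
            = (q + 1) * (q + 2) * (S.card + 1) := by ring
          _ ≤ _ := Nat.mul_le_mul_left _ hlt'
      have h3 : 2 * (q + 2) * m + (q + 2) * (2 * (k * p)) = 2 * (q + 2) * U.card + 2 * (q + 2) := by
        calc 2 * (q + 2) * m + (q + 2) * (2 * (k * p)) = 2 * (q + 2) * (k * p + m) := by ring
          _ = 2 * (q + 2) * (U.card + 1) := by rw [hn]
          _ = _ := by ring
      rw [hkp] at h3
      nlinarith
    obtain ⟨I, hIU, hI, hIp, hz⟩ := stuck H U p (q + 2) (by omega) hΔ hst hN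
    refine ⟨I, hIU, hI, hIp, ?_⟩
    have h1 := es_sdiff hIU hI
    have h2 := degsum_ge hIU hI
    have h3 : ((U \ I).filter (fun v => 1 ≤ dg H I v)).card +
        ((U \ I).filter (fun v => dg H I v = 0)).card = (U \ I).card := by
      rw [← card_filter_add_card_filter_not (s := U \ I) (fun v => 1 ≤ dg H I v)]
      congr 2
      ext v
      simp
    have h4 := card_sdiff_add_card_eq_card hIU
    have h5 : 2 * m ≤ ∑ x ∈ I, dg H U x := by
      have h6 : (q + 3) * p = (q + 2) * p + p := by ring
      omega
    have h7 : 2 * (q + 2) * m = 2 * q * m + 4 * m := by ring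
    omega
  · -- greedy
    obtain ⟨I, hIU, hI, hIp, hg⟩ := greedy H U p hst p le_rfl
    have hIne : I.Nonempty := card_pos.1 (by omega)
    obtain ⟨δ, hδ, h1⟩ := greedy_ineq H U I (q + 2) hIU hIne hg hΔ
    refine ⟨I, hIU, hI, hIp, ?_⟩
    have h2 := es_sdiff hIU hI
    rw [hIp] at h1
    obtain ⟨D, hD⟩ : ∃ D, D = ∑ x ∈ I, dg H U x := ⟨_, rfl⟩
    obtain ⟨e, hee⟩ : ∃ e, e = es H U := ⟨_, rfl⟩
    obtain ⟨e', he'⟩ : ∃ e', e' = es H (U \ I) := ⟨_, rfl⟩
    obtain ⟨n, hnn⟩ : ∃ n, n = U.card := ⟨_, rfl⟩
    have hen : e ≤ (q + 1) * n := by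
      rw [hee, hnn, es, mul_comm, ← smul_eq_mul (U.card), ← sum_const]
      exact sum_le_sum fun v hv => by have := hΔ v hv; omega
    rw [← hD, ← hee, ← hnn] at h1
    rw [← hD, ← hee, ← he'] at h2
    rw [← hee] at he
    rw [← hnn] at hn
    rw [← he']
    have hm2 : 2 * m + (q + 3) * p = 2 * n + 2 := by
      rw [← hkp]; omega
    have h3 : (q + 2) * e' + (q + 2) * (2 * D) = (q + 2) * e := by rw [h2]; ring
    -- `(q+2) e' < (q+2) * 2 q m`
    have hgoal : (q + 2) * e' < (q + 2) * (2 * q * m) := by
      rcases le_or_gt n ((q + 2) * p) with h | h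
      · obtain ⟨y, hy⟩ := Nat.exists_eq_add_of_le h
        have h4 : 2 * e ≤ (q + 2) * (2 * D) := by
          have h5 : (q + 2) * (p * δ) = n * δ + y * δ := by
            rw [← mul_assoc, hy]; ring
          nlinarith
        nlinarith
      · obtain ⟨y, hy⟩ := Nat.exists_eq_add_of_lt h
        have h5 : n * δ = (q + 2) * (p * δ) + (y + 1) * δ := by
          rw [hy]; ring
        have h4 : 2 * e ≤ (q + 2) * (2 * D) + 2 * ((y + 1) * δ) := by
          nlinarith
        have h6 : (y + 1) * δ ≤ (y + 1) * (q + 1) := Nat.mul_le_mul_left _ (by omega)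
        have h7 : (q + 2) * e' ≤ q * e + 2 * ((y + 1) * (q + 1)) := by nlinarith
        have h8 : q * e ≤ q * ((q + 1) * n) := Nat.mul_le_mul_left _ hen
        have h9 : (q + 2) * (2 * q * m) + (q + 2) * q * ((q + 3) * p) =
            (q + 2) * q * (2 * n + 2) := by rw [← hm2]; ring
        have h10 : q * ((q + 1) * n) + 2 * ((y + 1) * (q + 1)) + (q + 2) * q * ((q + 3) * p) <
            (q + 2) * q * (2 * n + 2) := by
          have e1 : q * ((q + 1) * n) + 2 * ((y + 1) * (q + 1)) + (q + 2) * q * ((q + 3) * p) =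
              2 * q * (q + 2) * ((q + 2) * p) + (y + 1) * (q + 2) * (q + 1) := by rw [hy]; ring
          have e2 : (q + 2) * q * (2 * n + 2) = 2 * q * (q + 2) * ((q + 2) * p) +
              (y + 1) * (q + 2) * (2 * q) + 2 * (q * (q + 2)) := by rw [hy]; ring
          have e3 : (y + 1) * (q + 2) * (q + 1) ≤ (y + 1) * (q + 2) * (2 * q) :=
            Nat.mul_le_mul_left _ (by omega)
          have e4 : 0 < q * (q + 2) := by positivity
          omega
        omega
    exact Nat.lt_of_mul_lt_mul_left hgoal

/-- **Few edges.** A graph on `n` vertices with fewer than `(2k-1)(n-kp+1)` edges has `k`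
disjoint independent sets of size `p`. Here `n + 1 = k p + m`. -/
theorem star (H : SimpleGraph V) : ∀ (k p m n : ℕ) (U : Finset V), U.card = n →
    U.card + 1 = k * p + m → es H U < 2 * (2 * k - 1) * m → Pack H U k p := by
  classical
  intro k
  induction k with
  | zero => intro p m n U _ _ _; exact Pack.zero H U p
  | succ k ihk =>
    intro p m n
    induction n generalizing m with
    | zero =>
      intro U hU hn he
      rcases Nat.eq_zero_or_pos p with rfl | hp
      · exact Pack.pzero H U _
      · have hm : 1 ≤ m := by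
          by_contra h
          have : m = 0 := by omega
          subst this
          simp at he
        have : 1 ≤ (k + 1) * p := Nat.mul_pos (by omega) hp
        omega
    | succ n ihn =>
      intro U hU hn he
      rcases Nat.eq_zero_or_pos p with rfl | hp
      · exact Pack.pzero H U _
      have hm : 1 ≤ m := by
        by_contra h
        have : m = 0 := by omega
        subst this
        simp at he
      obtain ⟨r, hr⟩ : ∃ r, r = 2 * (k + 1) - 1 := ⟨_, rfl⟩
      rw [← hr] at he
      by_cases hΔ : ∀ v ∈ U, dg H U v + 1 ≤ r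
      · rcases Nat.eq_zero_or_pos k with rfl | hk
        · -- `k + 1 = 1`
          have hr1 : r = 1 := by omega
          have h0 : Ind H U := by
            intro a ha b hb hab
            have := hΔ a ha
            have h1 : 1 ≤ dg H U a := dg_pos.2 ⟨b, hb, hab⟩
            omega
          obtain ⟨T, _, hT, hTi, hTc⟩ := h0.exists_subset (empty_subset U)
            (by simp : (∅ : Finset V).card ≤ p) (by omega : p ≤ U.card)
          exact Pack.succ hT hTc hTi (Pack.zero H _ p)
        · obtain ⟨I, hIU, hI, hIp, hIe⟩ := heavy H U (k + 1) p m r (by omega) (by omega) hn hp hΔ he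
          apply Pack.succ hIU hIp hI
          have h1 := card_sdiff_add_card_eq_card hIU
          apply ihk p m (U \ I).card (U \ I) rfl
          · have : (k + 1) * p = k * p + p := by ring
            omega
          · have : 2 * k - 1 = r - 2 := by omega
            rw [this]; exact hIe
      · push Not at hΔ
        obtain ⟨v, hv, hvr⟩ := hΔ
        have h1 := es_erase (H := H) hv
        have h2 := card_erase_of_mem hv
        have hm2 : 2 ≤ m := by
          by_contra h
          have : m = 1 := by omega
          subst this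
          omega
        obtain ⟨m', rfl⟩ : ∃ m', m = m' + 1 := ⟨m - 1, by omega⟩
        refine Pack.mono (ihn m' (U.erase v) (by omega) (by omega) ?_) (erase_subset _ _)
        rw [← hr]
        have h3 : 2 * r * (m' + 1) = 2 * r * m' + 2 * r := by ring
        omega

end Q114.KC
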