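import Pool.Agent.Q114.KC.Greedy

/-!
Independent sets of prescribed size which dominate almost all vertices, if there is a maximal
independent set which is too small.
-/

set_option autoImplicit false
set_option linter.unusedSectionVars false

namespace Q114.KC

open Finset Q127.HS

variable {V : Type*} [DecidableEq V]

theorem exists_maxInd {H : SimpleGraph V} {U A : Finset V} (hA : A ⊆ U) (hi : Ind H A) :
    ∃ M, A ⊆ M ∧ MaxInd H U M := by
  classical
  obtain ⟨M, hM, hmax⟩ := exists_max_image (U.powerset.filter (fun M => A ⊆ M ∧ Ind H M)) card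
    ⟨A, mem_filter.2 ⟨mem_powerset.2 hA, subset_rfl, hi⟩⟩
  rw [mem_filter, mem_powerset] at hM
  refine ⟨M, hM.2.1, hM.1, hM.2.2, ?_⟩
  intro v hv hvM
  by_contra hcon
  push Not at hcon
  have h1 : insert v M ∈ U.powerset.filter (fun M => A ⊆ M ∧ Ind H M) := by
    rw [mem_filter, mem_powerset]
    refine ⟨insert_subset hv hM.1, hM.2.1.trans (subset_insert _ _), ?_⟩
    intro a ha b hb
    rcases mem_insert.1 ha with ha' | ha'
    · rcases mem_insert.1 hb with hb' | hb'
      · rw [ha', hb']; exact H.irrefl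
      · rw [ha']; exact fun h => hcon b hb' h.symm
    · rcases mem_insert.1 hb with hb' | hb'
      · rw [hb']; exact hcon a ha'
      · exact hM.2.2 a ha' b hb'
  have h2 := hmax _ h1
  rw [card_insert_of_notMem hvM] at h2
  omega

/-- number of vertices plus number of vertices with two neighbours in a maximal independent set -/
theorem count_max {H : SimpleGraph V} {U M : Finset V} {r : ℕ} (hM : MaxInd H U M)
    (hΔ : ∀ v ∈ U, dg H U v + 1 ≤ r) :
    U.card + ((U \ M).filter (fun v => 2 ≤ dg H M v)).card ≤ r * M.card := by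
  classical
  have h1 : (U \ M).card + ((U \ M).filter (fun v => 2 ≤ dg H M v)).card ≤
      ∑ v ∈ U \ M, dg H M v := by
    rw [card_eq_sum_ones, card_filter, ← sum_add_distrib]
    apply sum_le_sum
    intro v hv
    have h2 : 1 ≤ dg H M v := by
      rw [dg_pos]
      obtain ⟨x, hx, h⟩ := hM.2.2 v (mem_sdiff.1 hv).1 (mem_sdiff.1 hv).2
      exact ⟨x, hx, h.symm⟩
    split_ifs with h <;> omega
  rw [sum_dg_comm] at h1
  have h2 : ∑ x ∈ M, dg H (U \ M) x + M.card ≤ r * M.card := by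
    rw [card_eq_sum_ones, ← sum_add_distrib, mul_sum]
    apply sum_le_sum
    intro x hx
    have h3 := dg_mono H (sdiff_subset : U \ M ⊆ U) x
    have h4 := hΔ x (hM.1 hx)
    omega
  have h3 := card_sdiff_add_card_eq_card hM.1
  omega

/-- the maximum size of an independent subset -/
noncomputable def al (H : SimpleGraph V) (R : Finset V) : ℕ := by
  classical
  exact (R.powerset.filter (fun S => Ind H S)).sup card

theorem al_ge {H : SimpleGraph V} {R S : Finset V} (hS : S ⊆ R) (hi : Ind H S) :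
    S.card ≤ al H R := by
  classical
  unfold al
  exact le_sup (f := card) (mem_filter.2 ⟨mem_powerset.2 hS, hi⟩)

theorem al_spec (H : SimpleGraph V) (R : Finset V) : ∃ S ⊆ R, Ind H S ∧ S.card = al H R := by
  classical
  obtain ⟨S, hS, h⟩ := exists_mem_eq_sup (R.powerset.filter (fun S => Ind H S))
    ⟨∅, mem_filter.2 ⟨mem_powerset.2 (empty_subset _), fun u hu => absurd hu (notMem_empty u)⟩⟩
    card
  rw [mem_filter, mem_powerset] at hS
  refine ⟨S, hS.1, hS.2, ?_⟩
  unfold al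
  rw [← h]

theorem Ind.union {H : SimpleGraph V} {A B : Finset V} (hA : Ind H A) (hB : Ind H B)
    (h : ∀ a ∈ A, ∀ b ∈ B, ¬ H.Adj a b) : Ind H (A ∪ B) := by
  intro a ha b hb
  rcases mem_union.1 ha with ha' | ha'
  · rcases mem_union.1 hb with hb' | hb'
    · exact hA a ha' b hb'
    · exact h a ha' b hb'
  · rcases mem_union.1 hb with hb' | hb'
    · exact fun h' => h b hb' a ha' h'.symm
    · exact hB a ha' b hb'

section cliques

variable (H : SimpleGraph V) (U M : Finset V)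

/-- vertices with exactly one neighbour in `M` -/
noncomputable def PP : Finset V := by
  classical
  exact (U \ M).filter (fun v => dg H M v = 1)

/-- vertices of `M` with a neighbour in `T` -/
noncomputable def XX (T : Finset V) : Finset V := by
  classical
  exact M.filter (fun x => ∃ t ∈ T, H.Adj x t)

/-- private vertices of the vertices of `XX T`, not adjacent to `T` -/
noncomputable def RR (T : Finset V) : Finset V := by
  classical
  exact (PP H U M).filter (fun v => (∃ x ∈ XX H M T, H.Adj x v) ∧ ∀ t ∈ T, ¬ H.Adj t v)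

noncomputable def ff (T : Finset V) : ℕ := (M \ XX H M T).card + T.card + al H (RR H U M T)

variable {H U M}

theorem mem_PP {v : V} : v ∈ PP H U M ↔ v ∈ U ∧ v ∉ M ∧ dg H M v = 1 := by
  unfold PP
  rw [mem_filter, mem_sdiff, and_assoc]

theorem mem_XX {T : Finset V} {x : V} : x ∈ XX H M T ↔ x ∈ M ∧ ∃ t ∈ T, H.Adj x t := by
  classical
  unfold XX
  rw [mem_filter]

theorem mem_RR {T : Finset V} {v : V} : v ∈ RR H U M T ↔ v ∈ PP H U M ∧
    (∃ x ∈ XX H M T, H.Adj x v) ∧ ∀ t ∈ T, ¬ H.Adj t v := by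
  classical
  unfold RR
  rw [mem_filter]

theorem PP_unique {v x y : V} (hv : v ∈ PP H U M) (hx : x ∈ M) (hy : y ∈ M) (h1 : H.Adj x v)
    (h2 : H.Adj y v) : x = y := by
  classical
  have h3 := (mem_PP.1 hv).2.2
  rw [dg_eq, card_eq_one] at h3
  obtain ⟨z, hz⟩ := h3
  have h4 : x ∈ M.filter (fun w => H.Adj v w) := mem_filter.2 ⟨hx, h1.symm⟩
  have h5 : y ∈ M.filter (fun w => H.Adj v w) := mem_filter.2 ⟨hy, h2.symm⟩
  rw [hz, mem_singleton] at h4 h5
  rw [h4, h5]

theorem PP_exists {v : V} (hv : v ∈ PP H U M) : ∃ x ∈ M, H.Adj x v := by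
  have h3 := (mem_PP.1 hv).2.2
  obtain ⟨w, hw, h⟩ := dg_pos.1 (le_of_eq h3.symm)
  exact ⟨w, hw, h.symm⟩

theorem XX_mono {T T' : Finset V} (h : T ⊆ T') : XX H M T ⊆ XX H M T' := by
  intro x hx
  obtain ⟨h1, t, ht, h2⟩ := mem_XX.1 hx
  exact mem_XX.2 ⟨h1, t, h ht, h2⟩

theorem ff_empty : ff H U M ∅ = M.card := by
  unfold ff
  have h1 : XX H M ∅ = ∅ := by
    rw [eq_empty_iff_forall_notMem]
    intro x hx
    obtain ⟨_, t, ht, _⟩ := mem_XX.1 hx
    exact notMem_empty t ht
  have h2 : RR H U M ∅ = ∅ := by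
    rw [eq_empty_iff_forall_notMem]
    intro x hx
    obtain ⟨_, ⟨y, hy, _⟩, _⟩ := mem_RR.1 hx
    rw [h1] at hy
    exact notMem_empty y hy
  rw [h1, h2]
  obtain ⟨S, hS, _, h3⟩ := al_spec H (∅ : Finset V)
  rw [subset_empty.1 hS] at h3
  rw [← h3]
  simp

/-- the private neighbourhoods are cliques -/
def Clq (H : SimpleGraph V) (U M : Finset V) : Prop :=
  ∀ x ∈ M, ∀ y ∈ PP H U M, ∀ z ∈ PP H U M, H.Adj x y → H.Adj x z → y ≠ z → H.Adj y z

/-- independent sets of private vertices whose neighbours lie in `Y` -/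
theorem card_le_of_clq (hc : Clq H U M) {S Y : Finset V} (hS : S ⊆ PP H U M) (hi : Ind H S)
    (hY : ∀ v ∈ S, ∃ x ∈ Y, x ∈ M ∧ H.Adj x v) : S.card ≤ Y.card := by
  classical
  choose! g hg using hY
  apply card_le_card_of_injOn g
  · intro v hv
    exact (hg v hv).1
  · intro v hv w hw hvw
    by_contra hne
    have h1 := hg v hv
    have h2 := hg w hw
    rw [← hvw] at h2
    exact hi v hv w hw (hc (g v) h1.2.1 v (hS hv) w (hS hw) h1.2.2 h2.2.2 hne)

theorem ff_step (hc : Clq H U M) {T : Finset V} {y : V} (hy : y ∉ T) :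
    ff H U M (insert y T) ≤ ff H U M T + 1 := by
  classical
  obtain ⟨S, hS, hi, hcard⟩ := al_spec H (RR H U M (insert y T))
  unfold ff
  rw [← hcard, card_insert_of_notMem hy]
  have h1 : (S.filter (fun v => ∃ x ∈ XX H M T, H.Adj x v)).card ≤ al H (RR H U M T) := by
    apply al_ge _ (hi.mono (filter_subset _ _))
    intro v hv
    obtain ⟨h2, h3⟩ := mem_filter.1 hv
    obtain ⟨h4, _, h5⟩ := mem_RR.1 (hS h2)
    exact mem_RR.2 ⟨h4, h3, fun t ht => h5 t (mem_insert_of_mem ht)⟩
  have h2 : (S.filter (fun v => ¬ ∃ x ∈ XX H M T, H.Adj x v)).card ≤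
      (XX H M (insert y T) \ XX H M T).card := by
    apply card_le_of_clq hc (fun v hv => (mem_RR.1 (hS (mem_filter.1 hv).1)).1)
      (hi.mono (filter_subset _ _))
    intro v hv
    obtain ⟨h2, h3⟩ := mem_filter.1 hv
    obtain ⟨_, ⟨x, hx, h4⟩, _⟩ := mem_RR.1 (hS h2)
    exact ⟨x, mem_sdiff.2 ⟨hx, fun h5 => h3 ⟨x, h5, h4⟩⟩, (mem_XX.1 hx).1, h4⟩
  have h3 := card_filter_add_card_filter_not (s := S) (fun v => ∃ x ∈ XX H M T, H.Adj x v)
  have h4 : (M \ XX H M (insert y T)).card + (XX H M (insert y T) \ XX H M T).card =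
      (M \ XX H M T).card := by
    rw [← card_union_of_disjoint]
    · congr 1
      ext x
      simp only [mem_union, mem_sdiff]
      have hM : x ∈ XX H M (insert y T) → x ∈ M := fun h => (mem_XX.1 h).1
      have hM2 : x ∈ XX H M T → x ∈ XX H M (insert y T) := fun h => XX_mono (subset_insert _ _) h
      tauto
    · rw [disjoint_left]
      intro x hx hx'
      exact (mem_sdiff.1 hx).2 (mem_sdiff.1 hx').1
  omega

theorem ff_exists (hc : Clq H U M) (p : ℕ) (hp : M.card ≤ p) : ∀ Y : Finset V,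
    p ≤ ff H U M Y → ∃ T ⊆ Y, ff H U M T = p := by
  classical
  intro Y
  induction Y using Finset.induction_on with
  | empty =>
    intro h
    refine ⟨∅, subset_rfl, ?_⟩
    rw [ff_empty] at h ⊢
    omega
  | insert y Y hy ih =>
    intro h
    by_cases h1 : p ≤ ff H U M Y
    · obtain ⟨T, hT, h2⟩ := ih h1
      exact ⟨T, hT.trans (subset_insert _ _), h2⟩
    · have := ff_step hc hy
      exact ⟨insert y Y, subset_rfl, by omega⟩

theorem ff_final (hM : MaxInd H U M) (hc : Clq H U M) {N : Finset V} (hN : N ⊆ U)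
    (hi : Ind H N) :
    N.card ≤ ff H U M (N.filter (fun v => v ∉ M ∧ 2 ≤ dg H M v)) := by
  classical
  obtain ⟨Y, hY⟩ : ∃ Y, Y = N.filter (fun v => v ∉ M ∧ 2 ≤ dg H M v) := ⟨_, rfl⟩
  rw [← hY]
  have hYN : Y ⊆ N := hY ▸ filter_subset _ _
  obtain ⟨N1, hN1⟩ : ∃ N1, N1 = N.filter (fun v => v ∈ PP H U M ∧ ∃ x ∈ XX H M Y, H.Adj x v) :=
    ⟨_, rfl⟩
  obtain ⟨N2, hN2⟩ : ∃ N2, N2 = N.filter (fun v => v ∈ PP H U M ∧ ¬ ∃ x ∈ XX H M Y, H.Adj x v) :=
    ⟨_, rfl⟩
  have hcover : N ⊆ (N ∩ M) ∪ N2 ∪ Y ∪ N1 := by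
    intro v hv
    simp only [mem_union, mem_inter]
    by_cases h1 : v ∈ M
    · exact Or.inl (Or.inl (Or.inl ⟨hv, h1⟩))
    · have h2 : 1 ≤ dg H M v := by
        rw [dg_pos]
        obtain ⟨x, hx, h⟩ := hM.2.2 v (hN hv) h1
        exact ⟨x, hx, h.symm⟩
      by_cases h3 : 2 ≤ dg H M v
      · exact Or.inl (Or.inr (hY ▸ mem_filter.2 ⟨hv, h1, h3⟩))
      · have h4 : v ∈ PP H U M := mem_PP.2 ⟨hN hv, h1, by omega⟩
        by_cases h5 : ∃ x ∈ XX H M Y, H.Adj x v
        · exact Or.inr (hN1 ▸ mem_filter.2 ⟨hv, h4, h5⟩)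
        · exact Or.inl (Or.inl (Or.inr (hN2 ▸ mem_filter.2 ⟨hv, h4, h5⟩)))
  have h1 : N1.card ≤ al H (RR H U M Y) := by
    apply al_ge _ (hi.mono (hN1 ▸ filter_subset _ _))
    intro v hv
    rw [hN1, mem_filter] at hv
    exact mem_RR.2 ⟨hv.2.1, hv.2.2, fun t ht => hi t (hYN ht) v hv.1⟩
  have h2 : N2.card ≤ (M \ (XX H M Y ∪ N)).card := by
    apply card_le_of_clq hc (fun v hv => (mem_filter.1 (hN2 ▸ hv)).2.1)
      (hi.mono (hN2 ▸ filter_subset _ _))
    intro v hv
    rw [hN2, mem_filter] at hv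
    obtain ⟨x, hx, h⟩ := PP_exists hv.2.1
    refine ⟨x, ?_, hx, h⟩
    rw [mem_sdiff, mem_union]
    refine ⟨hx, ?_⟩
    rintro (h3 | h3)
    · exact hv.2.2 ⟨x, h3, h⟩
    · exact hi x h3 v hv.1 h
  have h3 : (N ∩ M).card + (M \ (XX H M Y ∪ N)).card ≤ (M \ XX H M Y).card := by
    rw [← card_union_of_disjoint]
    · apply card_le_card
      intro x hx
      rw [mem_union, mem_inter, mem_sdiff, mem_union] at hx
      rw [mem_sdiff]
      rcases hx with ⟨h3, h4⟩ | ⟨h3, h4⟩
      · refine ⟨h4, fun h5 => ?_⟩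
        obtain ⟨_, t, ht, h6⟩ := mem_XX.1 h5
        exact hi x h3 t (hYN ht) h6
      · exact ⟨h3, fun h5 => h4 (Or.inl h5)⟩
    · rw [disjoint_left]
      intro x hx hx'
      exact (mem_sdiff.1 hx').2 (mem_union_right _ (mem_inter.1 hx).1)
  have h4 := card_le_card hcover
  have h5 := card_union_le ((N ∩ M) ∪ N2 ∪ Y) N1
  have h6 := card_union_le ((N ∩ M) ∪ N2) Y
  have h7 := card_union_le (N ∩ M) N2
  unfold ff
  omega

theorem clique_case (hM : MaxInd H U M) (hc : Clq H U M) {N : Finset V} (hN : N ⊆ U)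
    (hi : Ind H N) {p : ℕ} (hMp : M.card ≤ p) (hp : p ≤ N.card) :
    ∃ I ⊆ U, Ind H I ∧ I.card = p ∧ (U \ I).filter (fun v => dg H I v = 0) ⊆
      (U \ M).filter (fun v => 2 ≤ dg H M v) := by
  classical
  obtain ⟨T, hT, hf⟩ := ff_exists hc p hMp _ (hp.trans (ff_final hM hc hN hi))
  obtain ⟨S, hS, hSi, hScard⟩ := al_spec H (RR H U M T)
  have hTN : T ⊆ N := hT.trans (filter_subset _ _)
  have hTQ : ∀ t ∈ T, t ∉ M ∧ 2 ≤ dg H M t := fun t ht => (mem_filter.1 (hT ht)).2
  have hSP : ∀ s ∈ S, s ∈ PP H U M := fun s hs => (mem_RR.1 (hS hs)).1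
  have hMX : ∀ x ∈ M \ XX H M T, x ∈ M ∧ ∀ t ∈ T, ¬ H.Adj x t := by
    intro x hx
    obtain ⟨h1, h2⟩ := mem_sdiff.1 hx
    exact ⟨h1, fun t ht h3 => h2 (mem_XX.2 ⟨h1, t, ht, h3⟩)⟩
  have hind : Ind H ((M \ XX H M T) ∪ T ∪ S) := by
    apply Ind.union
    · apply Ind.union (hM.2.1.mono sdiff_subset) (hi.mono hTN)
      intro a ha b hb
      exact (hMX a ha).2 b hb
    · exact hSi
    · intro a ha b hb hab
      rcases mem_union.1 ha with ha' | ha'
      · obtain ⟨_, ⟨x, hx, h1⟩, _⟩ := mem_RR.1 (hS hb)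
        have h2 := PP_unique (hSP b hb) (mem_XX.1 hx).1 (hMX a ha').1 h1 hab
        rw [← h2] at ha'
        exact (mem_sdiff.1 ha').2 hx
      · exact (mem_RR.1 (hS hb)).2.2 a ha' hab
  refine ⟨(M \ XX H M T) ∪ T ∪ S, ?_, hind, ?_, ?_⟩
  · apply union_subset (union_subset (sdiff_subset.trans hM.1) (hTN.trans hN))
    intro s hs
    exact (mem_PP.1 (hSP s hs)).1
  · rw [card_union_of_disjoint, card_union_of_disjoint, hScard]
    · exact hf
    · rw [disjoint_left]
      intro a ha hb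
      exact (hTQ a hb).1 (mem_sdiff.1 ha).1
    · rw [disjoint_left]
      intro a ha hb
      have h1 := mem_PP.1 (hSP a hb)
      rcases mem_union.1 ha with ha' | ha'
      · exact h1.2.1 (mem_sdiff.1 ha').1
      · have := (hTQ a ha').2
        omega
  · intro v hv
    obtain ⟨h1, h2⟩ := mem_filter.1 hv
    obtain ⟨hvU, hvI⟩ := mem_sdiff.1 h1
    rw [dg_zero] at h2
    have hvI1 : v ∉ M \ XX H M T := fun h => hvI (mem_union_left _ (mem_union_left _ h))
    have hvS : v ∉ S := fun h => hvI (mem_union_right _ h)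
    have hT' : ∀ t ∈ T, ¬ H.Adj v t := fun t ht =>
      h2 t (mem_union_left _ (mem_union_right _ ht))
    have hS' : ∀ t ∈ S, ¬ H.Adj v t := fun t ht => h2 t (mem_union_right _ ht)
    have hM' : ∀ t ∈ M \ XX H M T, ¬ H.Adj v t := fun t ht =>
      h2 t (mem_union_left _ (mem_union_left _ ht))
    have hvM : v ∉ M := by
      intro h
      by_cases h3 : v ∈ XX H M T
      · obtain ⟨_, t, ht, h4⟩ := mem_XX.1 h3
        exact hT' t ht h4
      · exact hvI1 (mem_sdiff.2 ⟨h, h3⟩)
    rw [mem_filter, mem_sdiff]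
    refine ⟨⟨hvU, hvM⟩, ?_⟩
    by_contra hlt
    have h3 : 1 ≤ dg H M v := by
      rw [dg_pos]
      obtain ⟨x, hx, h⟩ := hM.2.2 v hvU hvM
      exact ⟨x, hx, h.symm⟩
    have hvP : v ∈ PP H U M := mem_PP.2 ⟨hvU, hvM, by omega⟩
    obtain ⟨x, hx, hxv⟩ := PP_exists hvP
    have hxX : x ∈ XX H M T := by
      by_contra h4
      exact hM' x (mem_sdiff.2 ⟨hx, h4⟩) hxv.symm
    have hvR : v ∈ RR H U M T := mem_RR.2 ⟨hvP, ⟨x, hxX, hxv⟩, fun t ht h => hT' t ht h.symm⟩
    have h4 : (insert v S).card ≤ al H (RR H U M T) := by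
      apply al_ge (insert_subset hvR hS)
      intro a ha b hb
      rcases mem_insert.1 ha with ha' | ha'
      · rcases mem_insert.1 hb with hb' | hb'
        · rw [ha', hb']; exact H.irrefl
        · rw [ha']; exact hS' b hb'
      · rcases mem_insert.1 hb with hb' | hb'
        · rw [hb']; exact fun h => hS' a ha' h.symm
        · exact hSi a ha' b hb'
    rw [card_insert_of_notMem hvS, hScard] at h4
    omega

end cliques

/-- **Main step**: if some maximal independent set has fewer than `p` elements. -/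
theorem stuck (H : SimpleGraph V) (U : Finset V) (p r : ℕ) (hr : 2 ≤ r)
    (hΔ : ∀ v ∈ U, dg H U v + 1 ≤ r) (hM : ∃ M, MaxInd H U M ∧ M.card < p)
    (hN : ∃ N ⊆ U, Ind H N ∧ p ≤ N.card) :
    ∃ I ⊆ U, Ind H I ∧ I.card = p ∧
      ((U \ I).filter (fun v => dg H I v = 0)).card + U.card + 2 ≤ r * p := by
  classical
  obtain ⟨M0, hM0, hM0p⟩ := hM
  obtain ⟨M, hM, hmax⟩ := exists_max_image
    (U.powerset.filter (fun M => MaxInd H U M ∧ M.card < p)) card
    ⟨M0, mem_filter.2 ⟨mem_powerset.2 hM0.1, hM0, hM0p⟩⟩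
  rw [mem_filter, mem_powerset] at hM
  obtain ⟨hMU, hM, hMp⟩ := hM
  have hcount := count_max hM hΔ
  have hrp : r * M.card + r ≤ r * p := by
    calc r * M.card + r = r * (M.card + 1) := by ring
      _ ≤ r * p := Nat.mul_le_mul_left _ hMp
  by_cases hc : Clq H U M
  · obtain ⟨N, hNU, hNi, hNp⟩ := hN
    obtain ⟨I, hIU, hI, hIp, hsub⟩ := clique_case hM hc hNU hNi hMp.le hNp
    refine ⟨I, hIU, hI, hIp, ?_⟩
    have := card_le_card hsub
    omega
  · unfold Clq at hc
    push Not at hc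
    obtain ⟨x, hx, y, hy, z, hz, hxy, hxz, hyz, hnadj⟩ := hc
    have hy' := mem_PP.1 hy
    have hz' := mem_PP.1 hz
    obtain ⟨M1, hM1⟩ : ∃ M1, M1 = insert y (insert z (M.erase x)) := ⟨_, rfl⟩
    have hM1U : M1 ⊆ U := by
      rw [hM1]
      exact insert_subset hy'.1 (insert_subset hz'.1 ((erase_subset _ _).trans hMU))
    have hcardM1 : M1.card = M.card + 1 := by
      rw [hM1, card_insert_of_notMem, card_insert_of_notMem, card_erase_of_mem hx]
      · have : 0 < M.card := card_pos.2 ⟨x, hx⟩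
        omega
      · intro h; exact hz'.2.1 (mem_of_mem_erase h)
      · rw [mem_insert]
        rintro (h | h)
        · exact hyz h
        · exact hy'.2.1 (mem_of_mem_erase h)
    have hyM : ∀ w ∈ M.erase x, ¬ H.Adj w y := fun w hw h =>
      (mem_erase.1 hw).1 (PP_unique hy (mem_erase.1 hw).2 hx h hxy)
    have hzM : ∀ w ∈ M.erase x, ¬ H.Adj w z := fun w hw h =>
      (mem_erase.1 hw).1 (PP_unique hz (mem_erase.1 hw).2 hx h hxz)
    have hM1i : Ind H M1 := by
      rw [hM1]
      have h1 : insert y (insert z (M.erase x)) = {y} ∪ ({z} ∪ M.erase x) := by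
        ext w
        simp only [mem_insert, mem_union, mem_singleton, mem_erase]
      rw [h1]
      apply Ind.union (Ind.singleton H y)
      · apply Ind.union (Ind.singleton H z) (hM.2.1.mono (erase_subset _ _))
        intro a ha b hb hab
        rw [mem_singleton] at ha
        rw [ha] at hab
        exact hzM b hb hab.symm
      · intro a ha b hb hab
        rw [mem_singleton] at ha
        rw [ha] at hab
        rcases mem_union.1 hb with hb' | hb'
        · rw [mem_singleton] at hb'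
          rw [hb'] at hab
          exact hnadj hab
        · exact hyM b hb' hab.symm
    obtain ⟨M2, hM12, hM2⟩ := exists_maxInd hM1U hM1i
    have hM2p : p ≤ M2.card := by
      by_contra hlt
      have h1 := hmax M2 (mem_filter.2 ⟨mem_powerset.2 hM2.1, hM2, by omega⟩)
      have h2 := card_le_card hM12
      omega
    obtain ⟨I, h1I, hI2, hIi, hIp⟩ := hM2.2.1.exists_subset hM12 (by omega) hM2p
    refine ⟨I, hI2.trans hM2.1, hIi, hIp, ?_⟩
    have hyI : y ∈ I := h1I (by rw [hM1]; exact mem_insert_self _ _)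
    have hzI : z ∈ I := h1I (by rw [hM1]; exact mem_insert_of_mem (mem_insert_self _ _))
    have hwI : ∀ w ∈ M, w ≠ x → w ∈ I := fun w hw hwx => h1I (by
      rw [hM1]
      exact mem_insert_of_mem (mem_insert_of_mem (mem_erase.2 ⟨hwx, hw⟩)))
    have hsub : insert y (insert z ((U \ I).filter (fun v => dg H I v = 0))) ⊆
        U.filter (fun v => H.Adj x v) := by
      intro v hv
      rw [mem_insert, mem_insert] at hv
      rw [mem_filter]
      rcases hv with rfl | rfl | hv
      · exact ⟨hy'.1, hxy⟩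
      · exact ⟨hz'.1, hxz⟩
      · obtain ⟨h1, h2⟩ := mem_filter.1 hv
        obtain ⟨hvU, hvI⟩ := mem_sdiff.1 h1
        rw [dg_zero] at h2
        refine ⟨hvU, ?_⟩
        have hvx : v ≠ x := by
          rintro rfl
          exact h2 y hyI hxy
        have hvM : v ∉ M := fun h => hvI (hwI v h hvx)
        obtain ⟨w, hw, h3⟩ := hM.2.2 v hvU hvM
        by_cases h4 : w = x
        · rw [← h4]; exact h3
        · exact absurd h3.symm (h2 w (hwI w hw h4))
    have h1 := card_le_card hsub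
    rw [card_insert_of_notMem, card_insert_of_notMem, ← dg_eq] at h1
    · have h2 := hΔ x (hMU hx)
      omega
    · intro h
      exact (mem_sdiff.1 (mem_filter.1 h).1).2 hzI
    · rw [mem_insert]
      rintro (h | h)
      · exact hyz h
      · exact (mem_sdiff.1 (mem_filter.1 h).1).2 hyI

end Q114.KC
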